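import Mathlib

namespace Pool.Agent.Results.MP_9e9a14_co.Triangle

open Classical in
/-- The sum of the weights of the edges containing `v`. -/
noncomputable def vsum {n : ℕ} (G : SimpleGraph (Fin n)) (w : G.edgeSet → ℕ) (v : Fin n) : ℕ :=
  ∑ e : G.edgeSet, if v ∈ (e : Sym2 (Fin n)) then w e else 0

/-- `w` is an edge `{1,2,3}`-weighting that properly colours the vertices by sums. -/
def Proper3 {n : ℕ} (G : SimpleGraph (Fin n)) (w : G.edgeSet → ℕ) : Prop :=
  (∀ e, w e = 1 ∨ w e = 2 ∨ w e = 3) ∧ ∀ u v, G.Adj u v → vsum G w u ≠ vsum G w v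

/-- Two weightings are isomorphic: an automorphism of `G` carries one to the other. -/
def IsoW {n : ℕ} (G : SimpleGraph (Fin n)) (w w' : G.edgeSet → ℕ) : Prop :=
  ∃ φ : G ≃g G, ∀ e, w' (φ.mapEdgeSet e) = w e

/-- `G` is uniquely `{1,2,3}`-weight colourable. -/
def Unique3 {n : ℕ} (G : SimpleGraph (Fin n)) : Prop :=
  (∃ w, Proper3 G w) ∧ ∀ w w', Proper3 G w → Proper3 G w' → IsoW G w w'

abbrev T : SimpleGraph (Fin 3) := ⊤

def opp (i : Fin 3) : T.edgeSet := ⟨s(i + 1, i + 2), by revert i; decide⟩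

theorem opp_bij : Function.Bijective opp := by
  constructor
  · intro i j h
    have := congrArg Subtype.val h
    revert i j; decide
  · rintro ⟨e, he⟩
    induction e using Sym2.ind with
    | _ a b =>
      have : ∀ a b : Fin 3, a ≠ b → ∃ i : Fin 3, s(i + 1, i + 2) = s(a, b) := by decide
      obtain ⟨i, hi⟩ := this a b (by simpa using he)
      exact ⟨i, Subtype.ext hi⟩

theorem vsum_eq (w : T.edgeSet → ℕ) (v : Fin 3) :
    vsum T w v + w (opp v) = w (opp 0) + w (opp 1) + w (opp 2) := by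
  unfold vsum
  have hs : ∀ (i : Fintype T.edgeSet) (g : T.edgeSet → ℕ),
      @Finset.sum _ _ _ (@Finset.univ _ i) g = g (opp 0) + g (opp 1) + g (opp 2) := by
    intro i g
    rw [← Function.Bijective.sum_comp opp_bij, Fin.sum_univ_three]
  rw [hs]
  have h : ∀ i v : Fin 3, v ∈ ((opp i : T.edgeSet) : Sym2 (Fin 3)) ↔ v ≠ i := by
    intro i v
    simp only [opp, Sym2.mem_iff]
    revert i v; decide
  simp only [h]
  fin_cases v <;> simp <;> ring

theorem proper_iff (w : T.edgeSet → ℕ) : Proper3 T w ↔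
    (∀ i, w (opp i) = 1 ∨ w (opp i) = 2 ∨ w (opp i) = 3) ∧
      Function.Injective (fun i => w (opp i)) := by
  constructor
  · rintro ⟨h1, h2⟩
    refine ⟨fun i => h1 _, fun i j hij => ?_⟩
    by_contra hne
    have := h2 i j (by simpa using hne)
    have e1 := vsum_eq w i
    have e2 := vsum_eq w j
    simp only at hij
    omega
  · rintro ⟨h1, h2⟩
    refine ⟨fun e => ?_, fun u v huv h => ?_⟩
    · obtain ⟨i, rfl⟩ := opp_bij.2 e
      exact h1 i
    · have e1 := vsum_eq w u
      have e2 := vsum_eq w v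
      exact huv.ne (h2 (show w (opp u) = w (opp v) by omega))

theorem map_opp (σ : Equiv.Perm (Fin 3)) (i : Fin 3) :
    (SimpleGraph.Iso.completeGraph σ : T ≃g T).mapEdgeSet (opp i) = opp (σ i) := by
  apply Subtype.ext
  change Sym2.map σ s(i + 1, i + 2) = s(σ i + 1, σ i + 2)
  revert σ i; decide

theorem result : ∃ (n : ℕ) (G : SimpleGraph (Fin n)), G.edgeSet.Nonempty ∧ Unique3 G := by
  refine ⟨3, T, ⟨_, (opp 0).2⟩, ⟨fun e => ((Equiv.ofBijective opp opp_bij).symm e).val + 1, ?_⟩,
    fun w w' hw hw' => ?_⟩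
  · rw [proper_iff]
    have : ∀ i, (Equiv.ofBijective opp opp_bij).symm (opp i) = i := fun i =>
      (Equiv.ofBijective opp opp_bij).symm_apply_apply i
    simp only [this]
    refine ⟨by decide, by decide⟩
  · rw [proper_iff] at hw hw'
    have key : ∀ f g : Fin 3 → Fin 4, (∀ i, f i ≠ 0) → (∀ i, g i ≠ 0) → Function.Injective f →
        Function.Injective g → ∃ σ : Equiv.Perm (Fin 3), ∀ i, g (σ i) = f i := by decide +kernel
    obtain ⟨σ, hσ⟩ := key (fun i => ⟨w (opp i), by have := hw.1 i; omega⟩)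
      (fun i => ⟨w' (opp i), by have := hw'.1 i; omega⟩)
      (fun i h => by have := hw.1 i; have := congrArg Fin.val h; simp only at this; omega)
      (fun i h => by have := hw'.1 i; have := congrArg Fin.val h; simp only at this; omega)
      (fun i j h => hw.2 (congrArg Fin.val h)) (fun i j h => hw'.2 (congrArg Fin.val h))
    refine ⟨SimpleGraph.Iso.completeGraph σ, fun e => ?_⟩
    obtain ⟨i, rfl⟩ := opp_bij.2 e
    rw [map_opp]
    exact congrArg Fin.val (hσ i)

end Pool.Agent.Results.MP_9e9a14_co.Triangle
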